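import Pool.Agent.H2.MB2

set_option autoImplicit false

namespace Pool.Agent.Results.MP_2b96c2_al.NotDiscriminating
open Pool.Agent.H2.MB

/-- A metabelian group with abelian centralizers of nontrivial elements, separated but not
discriminated by surjections onto the free metabelian group of rank 2. -/
theorem result :
    ∃ (T : Type) (_ : Group T),
      derivedSeries T 2 = ⊥ ∧
      (∀ t : T, t ≠ 1 → ∀ a ∈ Subgroup.centralizer {t}, ∀ b ∈ Subgroup.centralizer {t},
        a * b = b * a) ∧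
      (∃ F : Set (T →* FreeGroup (Fin 2) ⧸ derivedSeries (FreeGroup (Fin 2)) 2),
        (∀ f ∈ F, Function.Surjective f) ∧ ∀ a : T, a ≠ 1 → ∃ f ∈ F, f a ≠ 1) ∧
      ¬ ∃ F : Set (T →* FreeGroup (Fin 2) ⧸ derivedSeries (FreeGroup (Fin 2)) 2),
        (∀ f ∈ F, Function.Surjective f) ∧
        ∀ (n : ℕ) (a : Fin n → T), 0 < n → (∀ i, a i ≠ 1) → ∃ f ∈ F, ∀ i, f (a i) ≠ 1 := by
  refine ⟨T, inferInstance, metab A comm_A fun a ha b hb => A_comm ha hb,
    fun t ht a ha b hb => CT t ht a b (Subgroup.mem_centralizer_singleton_iff.1 ha)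
      (Subgroup.mem_centralizer_singleton_iff.1 hb),
    ⟨Set.range proj, by rintro _ ⟨j, rfl⟩; exact proj_surj j, fun a ha => ?_⟩, ?_⟩
  · by_contra h
    push Not at h
    exact ha (Subtype.ext <| funext fun j => h _ ⟨j, rfl⟩)
  · rintro ⟨F, h1, h2⟩
    obtain ⟨f, hf, h⟩ := h2 2 ![ta 0 two_pos, ta 1 one_lt_two] two_pos
      (fun i => by fin_cases i; exacts [ta_ne 0 two_pos, ta_ne 1 one_lt_two])
    exact (nodisc f (h1 f hf)).elim (h 0) (h 1)

end Pool.Agent.Results.MP_2b96c2_al.NotDiscriminating
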